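import Pool.Agent.H53.GR.Targets

/-!
MP_6ab439_lc, board gar_modules, row UNI.
-/

set_option autoImplicit false

namespace Pool.Agent.H11.GR

open Pool.Agent.H68.BP Pool.Agent.H58.SF Pool.Agent.H53.GC Pool.Agent.H53.NR Pool.Agent.H58.GR
open Pool.Agent.H53.GR

theorem pf_UNI : Pool.Agent.H53.GR.T_UNI := by
  intro τ V _ 𝔹 M hU W _ _ 𝕏 hX
  classical
  have : Fintype W := Fintype.ofFinite W
  let e : Fin (Fintype.card W) ≃o W := Fintype.orderIsoFinOfCardEq W rfl
  obtain ⟨f, hf, hinj, hc⟩ := hU (Fintype.card W) (pull 𝕏 e) (by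
    intro m s hm hs hfr
    exact hX m (fun i => e (s i)) hm (e.injective.comp hs) hfr)
  refine ⟨fun w => f (e.symm w), hf.comp e.symm.strictMono,
    (hinj.comp e.symm.injective), fun l z => ?_⟩
  have h := hc l (fun i => e.symm (z i))
  simpa [pull] using h

end Pool.Agent.H11.GR
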